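import Pool.Agent.Helper93_FL.BStmts

/-!
# Module F2: thinning to constant values
-/

open MeasureTheory Set

namespace Pool.Agent.FL.H86

theorem isProb_unifM {n : ℕ} (hn : 0 < n) : IsProbabilityMeasure (unifM n) := by
  constructor
  simp only [unifM, Measure.smul_apply, smul_eq_mul]
  rw [Measure.count_univ]
  simp only [ENat.card_eq_coe_fintype_card, Fintype.card_fin]
  rw [ENat.toENNReal_coe]
  exact ENNReal.inv_mul_cancel (by exact_mod_cast hn.ne') (ENNReal.natCast_ne_top n)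

theorem isProb_mU : IsProbabilityMeasure mU := by
  have : ∀ m, IsProbabilityMeasure (unifM (Lz m)) := fun m => isProb_unifM (Nat.factorial_pos _)
  unfold mU
  infer_instance

theorem isProb_mP (I : Type) : IsProbabilityMeasure (mP I) := by
  have := isProb_mU
  unfold mP
  infer_instance

/-- Conditions inside a set depending on `J` can be taken below `J`. -/
theorem restr_sub (hA : ApiStmt) {I : Type} [LinearOrder I] [WellFoundedLT I] {J : Set I}
    (hJ : IsLowerSet J) {p q : Cond I} (hp : p.Below J) (hq : q ≤ p) {A : Set (Pt I)}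
    (hdep : DepOn J A) (hqA : q.body ⊆ A) :
    q.restr J ≤ p ∧ (q.restr J).Below J ∧ (q.restr J).body ⊆ A := by
  obtain ⟨h1, h2, h3, h4, _, _, _, h8⟩ := hA I J hJ
  refine ⟨(h3 p q hq).trans (h4 p hp).2, (h2 q).1, fun y hy => ?_⟩
  obtain ⟨y', hy', hyy⟩ := h8 q y ((h1 q y).1 hy)
  exact (hdep y' y hyy).1 (hqA hy')

theorem depOn_compl {I : Type} {J : Set I} {A : Set (Pt I)} (h : DepOn J A) : DepOn J Aᶜ := by
  intro y y' hy
  simp only [Set.mem_compl_iff, h y y' hy]

theorem depOn_iUnion {I : Type} {J : Set I} {A : ℕ → Set (Pt I)} (h : ∀ n, DepOn J (A n)) :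
    DepOn J (⋃ n, A n) := by
  intro y y' hy
  simp only [Set.mem_iUnion, h _ y y' hy]

/-- If `A` has measure zero then its complement has not. -/
theorem compl_ne {I : Type} [LinearOrder I] [WellFoundedLT I] (p : Cond I) {A : Set (Pt I)}
    (h : mP I {u | p.X u ∈ A} = 0) : mP I {u | p.X u ∈ Aᶜ} ≠ 0 := by
  intro h'
  have := isProb_mP I
  have h1 : (Set.univ : Set (I → Rd)) ⊆ {u | p.X u ∈ A} ∪ {u | p.X u ∈ Aᶜ} := by
    intro u _
    by_cases hu : p.X u ∈ A
    · exact Or.inl hu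
    · exact Or.inr hu
  have h2 : mP I (Set.univ : Set (I → Rd)) ≤ 0 :=
    (measure_mono h1).trans ((measure_union_le _ _).trans (by rw [h, h', add_zero]))
  rw [measure_univ] at h2
  exact absurd h2 (by simp)

theorem iUnion_zero {I : Type} [LinearOrder I] [WellFoundedLT I] (p : Cond I)
    {A : ℕ → Set (Pt I)} (h : ∀ n, mP I {u | p.X u ∈ A n} = 0) :
    mP I {u | p.X u ∈ ⋃ n, A n} = 0 := by
  have : {u | p.X u ∈ ⋃ n, A n} = ⋃ n, {u | p.X u ∈ A n} := by
    ext u
    simp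
  rw [this]
  exact measure_iUnion_null h

theorem const (hP : PMStmt) (hA : ApiStmt) : ConstStmt := by
  intro I _ _ J hJ p hp
  refine ⟨fun A hm hd => ?_, fun A hm hd hcov => ?_, fun A hm hd hno => ?_⟩
  · by_cases h : mP I {u | p.X u ∈ A} = 0
    · obtain ⟨q, hq, hqA⟩ := hP I p Aᶜ hm.compl (compl_ne p h)
      obtain ⟨h1, h2, h3⟩ := restr_sub hA hJ hp hq (depOn_compl hd) hqA
      exact ⟨_, h1, h2, Or.inr h3⟩
    · obtain ⟨q, hq, hqA⟩ := hP I p A hm h
      obtain ⟨h1, h2, h3⟩ := restr_sub hA hJ hp hq hd hqA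
      exact ⟨_, h1, h2, Or.inl h3⟩
  · by_contra hcon
    have h0 : ∀ n, mP I {u | p.X u ∈ A n} = 0 := by
      intro n
      by_contra h
      obtain ⟨q, hq, hqA⟩ := hP I p (A n) (hm n) h
      obtain ⟨h1, h2, h3⟩ := restr_sub hA hJ hp hq (hd n) hqA
      exact hcon ⟨_, h1, h2, n, h3⟩
    obtain ⟨q, hq, hqA⟩ := hP I p (⋃ n, A n)ᶜ (MeasurableSet.iUnion hm).compl
      (compl_ne p (iUnion_zero p h0))
    obtain ⟨y, hy⟩ := q.body_nonempty
    exact hqA hy (hcov (hq hy))
  · have h0 : ∀ n, mP I {u | p.X u ∈ A n} = 0 := by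
      intro n
      by_contra h
      obtain ⟨q, hq, hqA⟩ := hP I p (A n) (hm n) h
      obtain ⟨h1, h2, h3⟩ := restr_sub hA hJ hp hq (hd n) hqA
      exact hno n _ h1 h2 h3
    obtain ⟨q, hq, hqA⟩ := hP I p (⋃ n, A n)ᶜ (MeasurableSet.iUnion hm).compl
      (compl_ne p (iUnion_zero p h0))
    obtain ⟨h1, h2, h3⟩ := restr_sub hA hJ hp hq (depOn_compl (depOn_iUnion hd)) hqA
    refine ⟨_, h1, h2, fun n y hy hyA => ?_⟩
    exact h3 hy (Set.mem_iUnion.2 ⟨n, hyA⟩)

end Pool.Agent.FL.H86
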