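import Pool.Agent.Helper86_FL.F5

/-!
# Module F4: the essential decision lemma, one step
-/

open MeasureTheory Set

namespace Pool.Agent.FL.H86

/-- The first member of a sequence of sets which contains the point. -/
theorem exists_first {I : Type} [LinearOrder I] (f : ℕ → Cond I) (C : Set I)
    (hdep : ∀ m, DepOn C (f m).body) :
    ∃ c : Pt I → ℕ, Measurable c ∧ DepFun C c ∧ ∀ y, (∃ m, y ∈ (f m).body) → y ∈ (f (c y)).body := by
  classical
  let P : Pt I → ℕ → Prop := fun y m => y ∈ (f m).body ∨ ¬ ∃ l, y ∈ (f l).body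
  have hP : ∀ y, ∃ m, P y m := by
    intro y
    by_cases h : ∃ l, y ∈ (f l).body
    · obtain ⟨l, hl⟩ := h
      exact ⟨l, Or.inl hl⟩
    · exact ⟨0, Or.inr h⟩
  refine ⟨fun y => Nat.find (hP y), measurable_find hP ?_, ?_, ?_⟩
  · intro m
    have : {y | P y m} = (f m).body ∪ (⋃ l, (f l).body)ᶜ := by
      ext y
      simp [P]
    rw [this]
    exact (f m).measurableSet_body.union (MeasurableSet.iUnion fun l => (f l).measurableSet_body).compl
  · intro y y' h
    have h1 : ∀ m, P y m ↔ P y' m := by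
      intro m
      simp only [P, hdep _ y y' h]
    apply le_antisymm
    · exact Nat.find_min' _ ((h1 _).2 (Nat.find_spec (hP y')))
    · exact Nat.find_min' _ ((h1 _).1 (Nat.find_spec (hP y)))
  · intro y hy
    rcases Nat.find_spec (hP y) with h | h
    · exact h
    · exact absurd hy h

theorem slStep (hA : ApiStmt) (hK : KLStmt) (_hC : ConstStmt) : SLStepStmt := by
  classical
  intro I _ _ J hJ hSL hBR p hp F hF n k K' hk hnorm D hD1 hD2 hD3
  rcases F.eq_empty_or_nonempty with hFe | hFne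
  · -- no control
    obtain ⟨d, hd, hdp⟩ := hD3 p le_rfl hp
    refine ⟨d, hdp, (hD1 d hd).2, ?_, ⟨0, ?_⟩, {d}, Set.finite_singleton d, ?_, ?_⟩
    · intro j hj; simp [hFe] at hj
    · intro j hj; simp [hFe] at hj
    · simpa using hd
    · simp
  · set j := F.max' hFne with hjdef
    have hjF : j ∈ F := F.max'_mem hFne
    have hj : j ∈ J := hF (Finset.mem_coe.2 hjF)
    have hle : ∀ i ∈ F, i ≤ j := fun i hi => F.le_max' i hi
    have hsub : Set.Iio j ⊆ J := fun i hi => hJ (le_of_lt hi) hj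
    obtain ⟨a1, a2, a3, a4, a5, a6, a7, a8⟩ := hA I (Set.Iio j) (iio_lower j)
    let G : Set (Cond I) := {r | (r ≤ p.restr (Set.Iio j) ∧ r.Below (Set.Iio j)) ∧
      ∃ p' : Cond I, p' ≤ p ∧ p'.Below J ∧ (∀ i < j, ∀ y, p'.T i y = r.T i y) ∧
      (∀ y ∈ p'.body, SameUpTo (p'.T j y) (p.T j y) n ∧ NormGE (p'.T j y) n (k - 1)) ∧
      (∃ n', ∀ y ∈ p'.body, NormGE (p'.T j y) n' K') ∧
      ∃ E : Set (Cond I), E.Finite ∧ E ⊆ D ∧ p'.body ⊆ ⋃ d ∈ E, d.body}
    have hG1 : ∀ d ∈ G, d ≤ p.restr (Set.Iio j) ∧ d.Below (Set.Iio j) := fun d hd => hd.1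
    have hG2 : ∀ d ∈ G, ∀ e ≤ d, e.Below (Set.Iio j) → e ∈ G := by
      rintro r ⟨⟨h1, h2⟩, p', h3, h4, h5, h6, ⟨n', h7⟩, E, h8, h9, h10⟩ e he heb
      have her : e ≤ p'.restr (Set.Iio j) := by
        intro y hy
        rw [a1]
        intro i hi
        rw [h5 i hi y]
        exact he hy i
      obtain ⟨g1, g2, g3, g4, g5⟩ := a5 e p' heb her
      refine ⟨⟨he.trans h1, heb⟩, Cond.glue e p' (Set.Iio j), g1.trans h3, g5 J hsub h4, ?_, ?_,
        ⟨n', ?_⟩, E, h8, h9, fun y hy => h10 (g1 hy)⟩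
      · intro i hi y
        exact glue_T e p' (show i ∈ Set.Iio j from hi) y
      · intro y hy
        rw [glue_T' e p' (show j ∉ Set.Iio j from lt_irrefl j)]
        exact h6 y (g1 hy)
      · intro y hy
        rw [glue_T' e p' (show j ∉ Set.Iio j from lt_irrefl j)]
        exact h7 y (g1 hy)
    have hG3 : ∀ q ≤ p.restr (Set.Iio j), q.Below (Set.Iio j) → ∃ d ∈ G, d ≤ q := by
      intro q hq hqb
      obtain ⟨r', hr', hrb, p', hp', hpb, h5, h6, h7, h8⟩ :=
        hK I J hJ j hj (hBR j hj) p hp n k K' hk (fun y hy => hnorm j hjF y hy) D hD1 hD2 hD3 q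
          hq hqb
      exact ⟨r', ⟨⟨hr'.trans hq, hrb⟩, p', hp', hpb, h5, h6, h7, h8⟩, hr'⟩
    obtain ⟨q1, hq1, hq1b, hq1F, ⟨n1, hn1⟩, E, hEfin, hEG, hcov⟩ :=
      hSL j hj (p.restr (Set.Iio j)) (a2 p).1 (F.filter (· < j))
        (by
          intro i hi
          exact (Finset.mem_filter.1 (Finset.mem_coe.1 hi)).2)
        n k K' hk
        (by
          intro i hi y hy
          obtain ⟨hiF, hij⟩ := Finset.mem_filter.1 hi
          rw [restr_T p (show i ∈ Set.Iio j from hij)]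
          obtain ⟨y', hy', hyy⟩ := a8 p y ((a1 p y).1 hy)
          have h1 := hnorm i hiF y' hy'
          rwa [p.T_congr (y' := y) (fun l hl => hyy l (lt_trans hl hij))] at h1)
        G hG1 hG2 hG3
    have hE0 : E.Nonempty := by
      obtain ⟨y, hy⟩ := q1.body_nonempty
      obtain ⟨d, hd⟩ := Set.mem_iUnion.1 (hcov hy)
      obtain ⟨hdE, _⟩ := Set.mem_iUnion.1 hd
      exact ⟨d, hdE⟩
    obtain ⟨f, hf⟩ := hEfin.countable.exists_eq_range hE0
    have hfE : ∀ m, f m ∈ E := fun m => by rw [hf]; exact Set.mem_range_self m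
    choose! pp hpp using fun d (hd : d ∈ E) => (hEG hd).2
    -- countable support of the case distinction
    have hC1 : ∀ m, ∃ C ⊆ Set.Iio j, C.Countable ∧ DepOn C (f m).body := fun m =>
      a7 _ (f m).measurableSet_body (a4 (f m) (hEG (hfE m)).1.2).1
    choose C hC2 hC3 hC4 using hC1
    obtain ⟨c, hcm, hcd, hcs⟩ := exists_first f (⋃ m, C m) (by
      intro m y y' h
      exact hC4 m y y' (fun i hi => h i (Set.mem_iUnion.2 ⟨m, hi⟩)))
    obtain ⟨q, hqlt, hqge⟩ := a6 q1 c hcm (⋃ m, C m) (Set.countable_iUnion hC3)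
      (Set.iUnion_subset hC2) hcd (fun m => pp (f m))
    have hq1mem : ∀ y ∈ q.body, y ∈ q1.body := by
      intro y hy
      apply (a4 q1 hq1b).2
      rw [a1]
      intro i hi
      have := hy i
      rwa [hqlt i hi y] at this
    have hcmem : ∀ y ∈ q.body, y ∈ (f (c y)).body := by
      intro y hy
      obtain ⟨d, hd⟩ := Set.mem_iUnion.1 (hcov (hq1mem y hy))
      obtain ⟨hdE, hyd⟩ := Set.mem_iUnion.1 hd
      apply hcs
      rw [hf] at hdE
      obtain ⟨m, rfl⟩ := hdE
      exact ⟨m, hyd⟩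
    have hppmem : ∀ y ∈ q.body, y ∈ (pp (f (c y))).body := by
      intro y hy i
      by_cases hi : i < j
      · rw [(hpp _ (hfE (c y))).2.2.1 i hi y]
        exact hcmem y hy i
      · have := hy i
        rwa [hqge i hi y] at this
    have hqT : ∀ y, q.T j y = (pp (f (c y))).T j y := fun y => hqge j (lt_irrefl j) y
    obtain ⟨n2, hn2⟩ := exists_max hEfin (fun d m => ∀ y ∈ (pp d).body, NormGE ((pp d).T j y) m K')
      (fun d m m' hm h y hy => normGE_mono (h y hy) hm le_rfl)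
      (fun d hd => (hpp d hd).2.2.2.2.1)
    choose! EE hEE using fun d (hd : d ∈ E) => (hpp d hd).2.2.2.2.2
    refine ⟨q, fun y hy => (hpp _ (hfE (c y))).1 (hppmem y hy), ?_, ?_, ⟨max n1 n2, ?_⟩,
      ⋃ d ∈ E, EE d, hEfin.biUnion (fun d hd => (hEE d hd).1),
      Set.iUnion₂_subset (fun d hd => (hEE d hd).2.1), ?_⟩
    · intro i hi y
      rw [hqge i (fun h => hi (hsub h)) y]
      exact (hpp _ (hfE (c y))).2.1 i hi y
    · intro i hi y hy
      rcases lt_or_eq_of_le (hle i hi) with hij | hij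
      · have h1 := hq1F i (Finset.mem_filter.2 ⟨hi, hij⟩) y (hq1mem y hy)
        rw [restr_T p (show i ∈ Set.Iio j from hij)] at h1
        rwa [hqlt i hij y]
      · rw [hij, hqT y]
        exact (hpp _ (hfE (c y))).2.2.2.1 y (hppmem y hy)
    · intro i hi y hy
      rcases lt_or_eq_of_le (hle i hi) with hij | hij
      · rw [hqlt i hij y]
        exact normGE_mono (hn1 i (Finset.mem_filter.2 ⟨hi, hij⟩) y (hq1mem y hy))
          (le_max_left _ _) le_rfl
      · rw [hij, hqT y]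
        exact normGE_mono (hn2 _ (hfE (c y)) y (hppmem y hy)) (le_max_right _ _) le_rfl
    · intro y hy
      obtain ⟨d, hd⟩ := Set.mem_iUnion.1 ((hEE _ (hfE (c y))).2.2 (hppmem y hy))
      obtain ⟨hdE, hyd⟩ := Set.mem_iUnion.1 hd
      exact Set.mem_iUnion₂.2 ⟨d, Set.mem_iUnion₂.2 ⟨_, hfE (c y), hdE⟩, hyd⟩

end Pool.Agent.FL.H86
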