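import Pool.Agent.Helper93_FL.BStmts

/-!
# Module F5: introduction of a new coordinate
-/

open MeasureTheory Set

namespace Pool.Agent.FL.H86

theorem normGE_mono {T : Set Node} {n n' k k' : ℕ} (h : NormGE T n k) (hn : n ≤ n')
    (hk : k' ≤ k) : NormGE T n' k' := fun σ hσ hl =>
  (Nat.pow_le_pow_right (by omega) hk).trans (h σ hσ (hn.trans hl))

theorem sameUpTo_refl (T : Set Node) (n : ℕ) : SameUpTo T T n := fun _ _ => Iff.rfl

theorem restr_T {I : Type} [LinearOrder I] (p : Cond I) {J : Set I} {i : I} (h : i ∈ J)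
    (y : Pt I) : (p.restr J).T i y = p.T i y := by
  simp [Cond.restr, h]

theorem glue_T {I : Type} [LinearOrder I] (r p : Cond I) {J : Set I} {i : I} (h : i ∈ J)
    (y : Pt I) : (Cond.glue r p J).T i y = r.T i y := by
  simp [Cond.glue, h]

theorem glue_T' {I : Type} [LinearOrder I] (r p : Cond I) {J : Set I} {i : I} (h : i ∉ J)
    (y : Pt I) : (Cond.glue r p J).T i y = p.T i y := by
  simp [Cond.glue, h]

theorem iio_lower {I : Type} [LinearOrder I] (j : I) : IsLowerSet (Set.Iio j) :=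
  isLowerSet_Iio j

theorem depOn_tree {I : Type} [LinearOrder I] (p : Cond I) (j : I) (P : Set Node → Prop) :
    DepOn (Set.Iio j) {y | P (p.T j y)} := by
  intro y y' h
  simp only [Set.mem_ofPred_eq]
  rw [p.T_congr (y' := y') (fun i hi => h i hi)]

/-- A natural number bounding finitely many natural numbers. -/
theorem exists_max {α : Type*} {E : Set α} (hE : E.Finite) (P : α → ℕ → Prop)
    (hmono : ∀ a n m, n ≤ m → P a n → P a m) (h : ∀ a ∈ E, ∃ n, P a n) :
    ∃ n, ∀ a ∈ E, P a n := by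
  classical
  choose! g hg using h
  refine ⟨hE.toFinset.sup g, fun a ha => hmono a _ _ ?_ (hg a ha)⟩
  exact Finset.le_sup (hE.mem_toFinset.2 ha)

theorem intro (hA : ApiStmt) (hC : ConstStmt) : IntroStmt := by
  classical
  intro I _ _ J hJ hSL p hp F hF j hj hjF n k hk hnorm
  have hsub : Set.Iio j ⊆ J := fun i hi => hJ (le_of_lt hi) hj
  obtain ⟨a1, a2, a3, a4, a5, a6, a7, a8⟩ := hA I (Set.Iio j) (iio_lower j)
  let D : Set (Cond I) := {d | (d ≤ p.restr (Set.Iio j) ∧ d.Below (Set.Iio j)) ∧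
    ∃ n2, ∀ y ∈ d.body, NormGE (p.T j y) n2 k}
  have hD1 : ∀ d ∈ D, d ≤ p.restr (Set.Iio j) ∧ d.Below (Set.Iio j) := fun d hd => hd.1
  have hD2 : ∀ d ∈ D, ∀ e ≤ d, e.Below (Set.Iio j) → e ∈ D := by
    rintro d ⟨⟨h1, h2⟩, n2, h3⟩ e he hb
    exact ⟨⟨he.trans h1, hb⟩, n2, fun y hy => h3 y (he hy)⟩
  have hD3 : ∀ q ≤ p.restr (Set.Iio j), q.Below (Set.Iio j) → ∃ d ∈ D, d ≤ q := by
    intro q hq hqb
    obtain ⟨d, hd, hdb, n2, hd2⟩ := (hC I (Set.Iio j) (iio_lower j) q hqb).2.1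
      (fun m => {y | NormGE (p.T j y) m k})
      (fun m => (measurableSet_normGE m k).preimage (p.meas j))
      (fun m => depOn_tree p j (fun T => NormGE T m k))
      (by
        intro y _
        obtain ⟨m, hm⟩ := (p.good j y).norm k
        exact Set.mem_iUnion.2 ⟨m, hm⟩)
    exact ⟨d, ⟨⟨hd.trans hq, hdb⟩, n2, fun y hy => hd2 hy⟩, hd⟩
  obtain ⟨q1, hq1, hq1b, hq1F, ⟨n1, hn1⟩, E, hEfin, hED, hcov⟩ :=
    hSL j hj (p.restr (Set.Iio j)) (a2 p).1 (F.filter (· < j))
      (by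
        intro i hi
        have := (Finset.mem_filter.1 (Finset.mem_coe.1 hi)).2
        exact this)
      n k k hk
      (by
        intro i hi y hy
        obtain ⟨hiF, hij⟩ := Finset.mem_filter.1 hi
        rw [restr_T p (show i ∈ Set.Iio j from hij)]
        obtain ⟨y', hy', hyy⟩ := a8 p y ((a1 p y).1 hy)
        have h1 := hnorm i hiF y' hy'
        rwa [p.T_congr (y' := y) (fun l hl => hyy l (lt_trans hl hij))] at h1)
      D hD1 hD2 hD3
  obtain ⟨n2, hn2⟩ := exists_max hEfin (fun d m => ∀ y ∈ d.body, NormGE (p.T j y) m k)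
    (fun d m m' hm h y hy => normGE_mono (h y hy) hm le_rfl) (fun d hd => (hED hd).2)
  obtain ⟨g1, g2, g3, g4, g5⟩ := a5 q1 p hq1b hq1
  have hqp : ∀ y ∈ (Cond.glue q1 p (Set.Iio j)).body, y ∈ p.body := fun y hy => g1 hy
  have hqq : ∀ y ∈ (Cond.glue q1 p (Set.Iio j)).body, y ∈ q1.body := fun y hy => g2 hy
  refine ⟨Cond.glue q1 p (Set.Iio j), g1, g5 J hsub hp, ?_, max n (max n1 n2), le_max_left _ _,
    ?_, ?_⟩
  · intro i hi y hy
    by_cases hij : i < j
    · rw [glue_T q1 p (show i ∈ Set.Iio j from hij)]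
      have := hq1F i (Finset.mem_filter.2 ⟨hi, hij⟩) y (hqq y hy)
      rwa [restr_T p (show i ∈ Set.Iio j from hij)] at this
    · rw [glue_T' q1 p (show i ∉ Set.Iio j from hij)]
      exact ⟨sameUpTo_refl _ _, normGE_mono (hnorm i hi y (hqp y hy)) le_rfl (Nat.sub_le _ _)⟩
  · intro y hy
    rw [glue_T' q1 p (show j ∉ Set.Iio j from lt_irrefl j)]
    obtain ⟨d, hd⟩ := Set.mem_iUnion.1 (hcov (hqq y hy))
    obtain ⟨hdE, hyd⟩ := Set.mem_iUnion.1 hd
    exact normGE_mono (hn2 d hdE y hyd) ((le_max_right _ _).trans (le_max_right _ _)) le_rfl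
  · intro i hi y hy
    by_cases hij : i < j
    · rw [glue_T q1 p (show i ∈ Set.Iio j from hij)]
      exact normGE_mono (hn1 i (Finset.mem_filter.2 ⟨hi, hij⟩) y (hqq y hy))
        ((le_max_left _ _).trans (le_max_right _ _)) le_rfl
    · rw [glue_T' q1 p (show i ∉ Set.Iio j from hij)]
      exact normGE_mono (hnorm i hi y (hqp y hy)) (le_max_left _ _) le_rfl

end Pool.Agent.FL.H86
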